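import Pool.Agent.Q156.SW.S10

/-!
Representations `n = k + m` with `p_k² + a_0`, `p_m² + a_1`, `p_{p_m}² + a_2` all prime (`p_j` is
the `j`-th prime; the question is the case `a_0 = a_1 = a_2 = -2`): for EVERY large `n` and almost
all shifts `(a_0, a_1, a_2)` in every residue class modulo the product `P` of the primes up to
`A log log x`, for instance the class of `(-2, -2, -2)`, the number of the representations is
asymptotically the number of the pairs without an obstruction at the primes up to `A log log x`,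
times the inverse of the cube of `log x ∏ (1 - 1/p)`.

Method: second moment over the shifts, with the other polynomials in the weights
(`Pool/Agent/Q156/AW`, `Pool/Agent/Q156/MW`, sieve model with the primes up to a power of `log x`),
then a second second moment with the fundamental lemma in the progressions modulo `P` and moments
of the local factors of the differences of the arguments (`Pool/Agent/Q156/SW`).
-/

set_option autoImplicit false

namespace Pool.Agent.Results.MP_04ff0f_nt.ObstructionFreeAsymptotic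

open Finset Filter

/-- the `j`-th prime, `prime 1 = 2` -/
noncomputable def prime (j : ℕ) : ℕ := Nat.nth Nat.Prime (j - 1)

/-- the three primes `p_{n-m}`, `p_m`, `p_{p_m}` -/
noncomputable def arg (n m : ℕ) : Fin 3 → ℤ := ![(prime (n - m) : ℤ), prime m, prime (prime m)]

/-- the number of the `m ∈ S` for which `p_{n-m}² + a_0`, `p_m² + a_1`, `p_{p_m}² + a_2` are all prime -/
noncomputable def reps (S : Finset ℕ) (n : ℕ) (a : Fin 3 → ℤ) : ℕ :=
  (S.filter (fun m => ∀ j, (arg n m j ^ 2 + a j).natAbs.Prime)).card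

/-- the number of the `m ∈ S` for which no prime `p ≤ y` divides one of the numbers
`p_{n-m}² + b_0`, `p_m² + b_1`, `p_{p_m}² + b_2` -/
noncomputable def free (S : Finset ℕ) (n y : ℕ) (b : Fin 3 → ℤ) : ℕ :=
  (S.filter (fun m => ∀ j, ∀ p ∈ (Icc 1 y).filter Nat.Prime, ¬ (p : ℤ) ∣ arg n m j ^ 2 + b j)).card

/-- the product of the primes `p ≤ y` -/
def P (y : ℕ) : ℕ := ∏ p ∈ (Icc 1 y).filter Nat.Prime, p

/-- the product of the `1 - 1/p` over the primes `p ≤ y` -/
noncomputable def V (y : ℕ) : ℝ := ∏ p ∈ (Icc 1 y).filter Nat.Prime, (1 - 1 / (p : ℝ))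

open Classical in
/-- all but at most `ε T³` of the triples `t` of integers in `[1, T]` have the property `R` -/
def Most (T : ℕ) (ε : ℝ) (R : (Fin 3 → ℕ) → Prop) : Prop :=
  (((Fintype.piFinset (fun _ : Fin 3 => Icc 1 T)).filter (fun t => ¬ R t)).card : ℝ) ≤ ε * (T : ℝ) ^ 3

theorem arg_eq (n m : ℕ) (j : Fin 3) : arg n m j = Pool.Agent.Q156.SW.arg n j m := by
  fin_cases j <;> rfl

theorem reps_eq (S : Finset ℕ) (n : ℕ) (a : Fin 3 → ℤ) : reps S n a = Pool.Agent.Q156.SW.Rep S n a := by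
  unfold reps Pool.Agent.Q156.SW.Rep
  simp only [arg_eq]

theorem free_eq (S : Finset ℕ) (n y : ℕ) (b : Fin 3 → ℤ) : free S n y b = (Pool.Agent.Q156.SW.LocS S n y b).card := by
  unfold free Pool.Agent.Q156.SW.LocS
  simp only [arg_eq]

theorem Most.mono {T : ℕ} {ε ε' : ℝ} {R R' : (Fin 3 → ℕ) → Prop} (h : Most T ε R) (he : ε ≤ ε')
    (hR : ∀ t ∈ Fintype.piFinset (fun _ : Fin 3 => Icc 1 T), R t → R' t) : Most T ε' R' := by
  classical
  unfold Most at h ⊢
  have h1 : ((Fintype.piFinset (fun _ : Fin 3 => Icc 1 T)).filter (fun t => ¬ R' t)).card ≤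
      ((Fintype.piFinset (fun _ : Fin 3 => Icc 1 T)).filter (fun t => ¬ R t)).card := by
    apply card_le_card
    intro t ht
    obtain ⟨h2, h3⟩ := mem_filter.1 ht
    exact mem_filter.2 ⟨h2, fun h4 => h3 (hR t h2 h4)⟩
  have h2 : (((Fintype.piFinset (fun _ : Fin 3 => Icc 1 T)).filter (fun t => ¬ R' t)).card : ℝ) ≤
      (((Fintype.piFinset (fun _ : Fin 3 => Icc 1 T)).filter (fun t => ¬ R t)).card : ℝ) := by exact_mod_cast h1
  have h3 : ε * (T : ℝ) ^ 3 ≤ ε' * (T : ℝ) ^ 3 := mul_le_mul_of_nonneg_right he (by positivity)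
  have h4 : (((Fintype.piFinset (fun _ : Fin 3 => Icc 1 T)).filter (fun t => ¬ R t)).card : ℝ) ≤ ε * (T : ℝ) ^ 3 := by
    convert h
  refine le_trans ?_ (h4.trans h3)
  convert h2

theorem most_of_all {T : ℕ} {ε : ℝ} {R : (Fin 3 → ℕ) → Prop} (hε : 0 ≤ ε)
    (hR : ∀ t ∈ Fintype.piFinset (fun _ : Fin 3 => Icc 1 T), R t) : Most T ε R := by
  classical
  unfold Most
  rw [filter_eq_empty_iff.2 (fun t ht => not_not.2 (hR t ht))]
  rw [card_empty, Nat.cast_zero]
  positivity

/-- the main result of the file -/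
theorem result (K : ℕ) (ε : ℝ) (hε : 0 < ε) : ∃ A N₀ : ℕ, ∀ n x y T : ℕ, N₀ ≤ n → x = 8 * prime (prime n) ^ 2 →
    y = ⌊(A : ℝ) * Real.log (Real.log x)⌋₊ → 4 * (T * P y) ≤ x → (x : ℝ) ≤ T * P y * Real.log x ^ K →
    ∀ b c : Fin 3 → ℤ, (∀ j, (x : ℤ) ≤ 4 * c j ∧ 2 * c j ≤ x ∧ (P y : ℤ) ∣ c j - b j) →
    (∀ S : Finset ℕ, S ⊆ Ioo 0 n → Most T ε (fun t =>
      |(reps S n (fun j => c j + P y * (t j : ℤ)) : ℝ) - free S n y b / (V y * Real.log x) ^ 3| ≤
        ε * (free S n y b / (V y * Real.log x) ^ 3) + n / Real.log n ^ K)) ∧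
    ((∀ j, (P y : ℤ) ∣ b j) → Most T ε (fun t =>
      |(reps (Ioo 0 n) n (fun j => c j + P y * (t j : ℤ)) : ℝ) - n / (V y * Real.log x) ^ 3| ≤
        ε * (n / (V y * Real.log x) ^ 3))) := by
  classical
  obtain ⟨ε₁, hε₁⟩ : ∃ ε₁, ε₁ = ε / 2 := ⟨_, rfl⟩
  have hε₁0 : 0 < ε₁ := by rw [hε₁]; positivity
  obtain ⟨A, N0, h⟩ := Pool.Agent.Q156.SW.core (K + 1) ε₁ hε₁0
  obtain ⟨N1, hV⟩ := Pool.Agent.H373R2.T7.Vz_inv_small 2
  have hlog : Tendsto (fun y : ℕ => Real.log y) atTop atTop :=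
    Real.tendsto_log_atTop.comp tendsto_natCast_atTop_atTop
  have ev := Pool.Agent.Q156.SW.qq_le.and ((Pool.Agent.TH204.WR.evt_log_pow 3 (1 : ℝ) one_pos).and
    ((hlog.eventually_ge_atTop (max (max 4 (8 * A)) (2 * (8 * A + 1) / ε₁))).and (eventually_ge_atTop 4)))
  obtain ⟨N2, h0⟩ := eventually_atTop.1 ev
  refine ⟨A, max (max N0 N1) N2, fun n x y T hn hx hy hT1 hT2 b c hc => ?_⟩
  have hn0 : N0 ≤ n := (le_max_left _ _).trans ((le_max_left _ _).trans hn)
  have hn1 : N1 ≤ n := (le_max_right _ _).trans ((le_max_left _ _).trans hn)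
  obtain ⟨⟨g1, g2, g3⟩, g4, g5, g6⟩ := h0 n ((le_max_right _ _).trans hn)
  rw [Real.rpow_one] at g4
  obtain ⟨Q, hQ⟩ : ∃ Q, Q = prime (prime n) := ⟨_, rfl⟩
  have hQ' : Pool.Agent.Q156.SW.q (Pool.Agent.Q156.SW.q n) = Q := by rw [hQ]; rfl
  rw [hQ'] at g1 g2
  rw [← hQ] at hx
  obtain ⟨L, hL⟩ : ∃ L, L = Real.log n := ⟨_, rfl⟩
  rw [← hL] at g1 g3 g4 g5
  have g51 := ((le_max_left _ _).trans (le_max_left _ _)).trans g5
  have g52 := ((le_max_right _ _).trans (le_max_left _ _)).trans g5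
  have g53 := (le_max_right _ _).trans g5
  have hn4 : (4 : ℝ) ≤ n := by exact_mod_cast g6
  have hL0 : 0 < L := by linarith
  have hA0 : (0 : ℝ) ≤ A := Nat.cast_nonneg _
  have hQn : n ≤ Q := by exact_mod_cast g2
  have hnx : n ≤ x := by
    rw [hx]
    nlinarith
  have hnxr : (n : ℝ) ≤ x := by exact_mod_cast hnx
  have hx1 : N1 ≤ x := hn1.trans hnx
  -- the size of x
  have hQ2 : (Q : ℝ) * 3 ≤ (n : ℝ) * n := by
    have a1 : (n : ℝ) * L ^ 3 ≤ n * n := mul_le_mul_of_nonneg_left g4 (by linarith)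
    linarith
  have hx4 : (x : ℝ) ≤ (n : ℝ) ^ 4 := by
    have a1 : (x : ℝ) = 8 * (Q : ℝ) ^ 2 := by rw [hx]; push_cast; ring
    have a2 : ((Q : ℝ) * 3) ^ 2 ≤ ((n : ℝ) * n) ^ 2 := pow_le_pow_left₀ (by positivity) hQ2 2
    have a3 : ((n : ℝ) * n) ^ 2 = (n : ℝ) ^ 4 := by ring
    rw [a3] at a2
    rw [a1]
    have a4 : 0 ≤ (Q : ℝ) ^ 2 := sq_nonneg _
    linarith
  have hx0 : (0 : ℝ) < x := by linarith
  have hLx : Real.log x ≤ 4 * L := by
    have := Real.log_le_log hx0 hx4
    rw [Real.log_pow, ← hL] at this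
    exact_mod_cast this
  have hLx2 : L ≤ Real.log x := by rw [hL]; exact Real.log_le_log (by linarith) hnxr
  have hlx4 : 4 ≤ Real.log x := by linarith
  have hllx : Real.log (Real.log x) ≤ Real.log x := by
    have := Real.log_le_sub_one_of_pos (show 0 < Real.log x by linarith)
    linarith
  have hllx0 : 0 ≤ Real.log (Real.log x) := Real.log_nonneg (by linarith)
  have hyA : (y : ℝ) ≤ A * Real.log (Real.log x) := by
    rw [hy]
    exact Nat.floor_le (mul_nonneg hA0 hllx0)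
  have hyL : (y : ℝ) ≤ 4 * A * L := by
    calc (y : ℝ) ≤ A * Real.log (Real.log x) := hyA
      _ ≤ A * (4 * L) := mul_le_mul_of_nonneg_left (by linarith) hA0
      _ = 4 * A * L := by ring
  have hL3 : L * L ≤ n := by
    calc L * L ≤ L * L * L := le_mul_of_one_le_right (by positivity) (by linarith)
      _ = L ^ 3 := by ring
      _ ≤ n := g4
  have hyn : 2 * (y : ℝ) + 1 ≤ ε₁ * n := by
    rw [div_le_iff₀ hε₁0] at g53
    have a1 : (2 * (8 * A + 1)) * L ≤ (L * ε₁) * L := mul_le_mul_of_nonneg_right g53 hL0.le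
    have a2 : (L * ε₁) * L ≤ ε₁ * n := by
      calc (L * ε₁) * L = ε₁ * (L * L) := by ring
        _ ≤ ε₁ * n := mul_le_mul_of_nonneg_left hL3 hε₁0.le
    have a3 : (1 : ℝ) ≤ L := by linarith
    have a4 : 0 ≤ (A : ℝ) * L := mul_nonneg hA0 hL0.le
    linarith
  have hyx : 4 * (y : ℝ) < x := by
    have a1 : 4 * (y : ℝ) ≤ 2 * (8 * A) * L := by linarith
    have a2 : (8 * (A : ℝ)) * L ≤ L * L := mul_le_mul_of_nonneg_right g52 hL0.le
    have a3 : (8 : ℝ) * Q ^ 2 = x := by rw [hx]; push_cast; ring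
    have a4 : (n : ℝ) ≤ Q := g2
    have a5 : (n : ℝ) * 4 ≤ Q ^ 2 := by nlinarith
    linarith
  have hcy : ∀ (t : Fin 3 → ℕ) j, (y : ℤ) < c j + P y * (t j : ℤ) := by
    intro t j
    have a1 := (hc j).1
    have a2 : 4 * (y : ℤ) < x := by exact_mod_cast hyx
    have a3 : (0 : ℤ) ≤ P y * (t j : ℤ) := by positivity
    linarith
  have hPd : ∀ p : ℕ, p.Prime → p ≤ y → p ∣ P y := by
    intro p hp hpy
    exact Pool.Agent.Q156.SW.prim_dvd hp hpy
  have hPb : ∀ (t : Fin 3 → ℕ) j, (P y : ℤ) ∣ (c j + P y * (t j : ℤ)) - b j := by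
    intro t j
    have a1 : c j + P y * (t j : ℤ) - b j = (c j - b j) + P y * (t j : ℤ) := by ring
    rw [a1]
    exact dvd_add (hc j).2.2 (dvd_mul_right _ _)
  -- the density
  have hV1 : 1 ≤ V y * Real.log x := by
    have hVp : 0 < V y := Pool.Agent.H373R2.T7.Vz_pos y
    rcases Nat.eq_zero_or_pos y with h1 | h1
    · have h2 : V y = 1 := by
        rw [h1]
        rfl
      rw [h2]
      linarith
    · have h2 := hV x hx1 y h1 (by
        have a1 : (8 * (A : ℝ)) * Real.log (Real.log x) ≤ Real.log x * Real.log x :=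
          mul_le_mul (g52.trans hLx2) hllx hllx0 (by linarith)
        have a2 : 0 ≤ (A : ℝ) * Real.log (Real.log x) := mul_nonneg hA0 hllx0
        rw [pow_two]
        linarith)
      have h3 : (V y)⁻¹ ≤ Real.log x := h2
      rw [inv_le_iff_one_le_mul₀' hVp] at h3
      exact h3
  obtain ⟨G, hG⟩ : ∃ G, G = (V y * Real.log x) ^ 3 := ⟨_, rfl⟩
  have hG1 : 1 ≤ G := by rw [hG]; exact one_le_pow₀ hV1
  rw [← hG]
  have hG0 : 0 < G := by linarith
  -- the core
  have hcore : ∀ S : Finset ℕ, S ⊆ Ioo 0 n →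
      (n : ℝ) ≤ (Pool.Agent.Q156.SW.LocS S n y b).card * L ^ (K + 1) →
      Most T ε₁ (fun t => |(reps S n (fun j => c j + P y * (t j : ℤ)) : ℝ) - free S n y b / G| ≤
        ε₁ * (free S n y b / G)) := by
    intro S hS hSn
    have h1 := h n hn0 x (by rw [hQ']; exact hx)
    have h2 := h1 (Pool.Agent.Q156.SW.LocS S n y b) ((filter_subset _ _).trans hS) (by rw [← hL]; exact hSn) c T
      (fun j => ⟨(hc j).1, (hc j).2.1⟩)
    rw [← hy] at h2
    have h3 := h2 hT1 (by
      refine hT2.trans ?_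
      apply mul_le_mul_of_nonneg_left _ (by positivity)
      exact pow_le_pow_right₀ (by linarith) (by omega)) (by
      intro j m hm p hp hpy hd
      unfold Pool.Agent.Q156.SW.LocS at hm
      obtain ⟨_, hm2⟩ := mem_filter.1 hm
      apply hm2 j p (mem_filter.2 ⟨mem_Icc.2 ⟨hp.one_lt.le, hpy⟩, hp⟩)
      have a1 : Pool.Agent.Q156.SW.arg n j m ^ 2 + b j = (Pool.Agent.Q156.SW.arg n j m ^ 2 + c j) - (c j - b j) := by ring
      rw [a1]
      exact dvd_sub hd ((Int.natCast_dvd_natCast.2 (hPd p hp hpy)).trans (hc j).2.2))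
    have h4 : Most T ε₁ (fun t => |(Pool.Agent.Q156.SW.Rep (Pool.Agent.Q156.SW.LocS S n y b) n
        (fun j => c j + P y * (t j : ℤ)) : ℝ) - (Pool.Agent.Q156.SW.LocS S n y b).card / G| ≤
        ε₁ * ((Pool.Agent.Q156.SW.LocS S n y b).card / G)) := by
      unfold Most
      rw [hG]
      exact h3
    refine h4.mono le_rfl ?_
    intro t _ h5
    rw [reps_eq, free_eq, Pool.Agent.Q156.SW.Rep_Loc S n y _ b (P y) hPd (hPb t) (hcy t)]
    exact h5
  refine ⟨?_, ?_⟩
  · intro S hS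
    by_cases hbig : (n : ℝ) ≤ (Pool.Agent.Q156.SW.LocS S n y b).card * L ^ (K + 1)
    · refine (hcore S hS hbig).mono (by rw [hε₁]; linarith) ?_
      intro t _ h1
      refine h1.trans ?_
      have a1 : (0 : ℝ) ≤ free S n y b / G := by positivity
      have a2 : (0 : ℝ) ≤ n / Real.log n ^ K := by
        rw [← hL]
        positivity
      have a3 : ε₁ * (free S n y b / G) ≤ ε * (free S n y b / G) :=
        mul_le_mul_of_nonneg_right (by rw [hε₁]; linarith) a1
      linarith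
    · push Not at hbig
      apply most_of_all hε.le
      intro t _
      rw [reps_eq, free_eq, Pool.Agent.Q156.SW.Rep_Loc S n y _ b (P y) hPd (hPb t) (hcy t)]
      obtain ⟨f, hf⟩ : ∃ f : ℝ, f = ((Pool.Agent.Q156.SW.LocS S n y b).card : ℝ) := ⟨_, rfl⟩
      obtain ⟨R, hR⟩ : ∃ R : ℝ, R = (Pool.Agent.Q156.SW.Rep (Pool.Agent.Q156.SW.LocS S n y b) n
        (fun j => c j + P y * (t j : ℤ)) : ℝ) := ⟨_, rfl⟩
      have hRf : R ≤ f := by
        rw [hR, hf]
        have : Pool.Agent.Q156.SW.Rep (Pool.Agent.Q156.SW.LocS S n y b) n (fun j => c j + P y * (t j : ℤ)) ≤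
            (Pool.Agent.Q156.SW.LocS S n y b).card := card_filter_le _ _
        exact_mod_cast this
      have hR0 : 0 ≤ R := by rw [hR]; exact Nat.cast_nonneg _
      have hf0 : 0 ≤ f := by rw [hf]; exact Nat.cast_nonneg _
      rw [← hf] at hbig
      rw [← hR, ← hf]
      have a1 : f / G ≤ f := div_le_self hf0 hG1
      have a2 : 0 ≤ f / G := by positivity
      have a3 : f ≤ n / Real.log n ^ K := by
        rw [← hL, le_div_iff₀ (pow_pos hL0 K)]
        refine le_trans ?_ hbig.le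
        apply mul_le_mul_of_nonneg_left _ hf0
        exact pow_le_pow_right₀ (by linarith) (by omega)
      have a4 : 0 ≤ ε * (f / G) := mul_nonneg hε.le a2
      rw [abs_le]
      constructor <;> linarith
  · intro hb
    -- the number of the elements without obstruction
    have hcount : (n : ℝ) - (2 * y + 1) ≤ (Pool.Agent.Q156.SW.LocS (Ioo 0 n) n y b).card ∧
        ((Pool.Agent.Q156.SW.LocS (Ioo 0 n) n y b).card : ℝ) ≤ n := by
      constructor
      · have h1 : Ioo y (n - y) ⊆ Pool.Agent.Q156.SW.LocS (Ioo 0 n) n y b := by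
          intro m hm
          rw [mem_Ioo] at hm
          unfold Pool.Agent.Q156.SW.LocS
          rw [mem_filter, mem_Ioo]
          refine ⟨by omega, ?_⟩
          intro j p hp hd
          obtain ⟨hp1, hp2⟩ := mem_filter.1 hp
          rw [mem_Icc] at hp1
          have h2 : (p : ℤ) ∣ Pool.Agent.Q156.SW.arg n j m ^ 2 := by
            have h3 : Pool.Agent.Q156.SW.arg n j m ^ 2 = (Pool.Agent.Q156.SW.arg n j m ^ 2 + b j) - b j := by ring
            rw [h3]
            exact dvd_sub hd ((Int.natCast_dvd_natCast.2 (hPd p hp2 hp1.2)).trans (hb j))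
          have h3 : (p : ℤ) ∣ Pool.Agent.Q156.SW.arg n j m := Int.Prime.dvd_pow' hp2 h2
          have h4 : ∀ i : ℕ, y < i → ¬ (p : ℤ) ∣ (Pool.Agent.Q156.SW.q i : ℤ) := by
            intro i hi hd2
            have h5 := (Nat.prime_dvd_prime_iff_eq hp2 (Pool.Agent.Q156.SW.q_prime i)).1 (Int.natCast_dvd_natCast.1 hd2)
            have h6 := Pool.Agent.Q156.SW.le_q i
            omega
          rcases Pool.Agent.Q156.SW.arg_cases n m j with h5 | h5 | h5
          · rw [h5] at h3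
            exact h4 _ (by omega) h3
          · rw [h5] at h3
            exact h4 _ hm.1 h3
          · rw [h5] at h3
            exact h4 _ (lt_of_lt_of_le hm.1 (Pool.Agent.Q156.SW.le_q m)) h3
        have h2 := card_le_card h1
        rw [Nat.card_Ioo] at h2
        have h3 : n ≤ (Pool.Agent.Q156.SW.LocS (Ioo 0 n) n y b).card + (2 * y + 1) := by omega
        have h4 : (n : ℝ) ≤ (Pool.Agent.Q156.SW.LocS (Ioo 0 n) n y b).card + (2 * y + 1) := by exact_mod_cast h3
        linarith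
      · have h1 : (Pool.Agent.Q156.SW.LocS (Ioo 0 n) n y b).card ≤ (Ioo 0 n).card := card_filter_le _ _
        rw [Nat.card_Ioo] at h1
        have h2 : (Pool.Agent.Q156.SW.LocS (Ioo 0 n) n y b).card ≤ n := by omega
        exact_mod_cast h2
    have hfew : (n : ℝ) ≤ (Pool.Agent.Q156.SW.LocS (Ioo 0 n) n y b).card * L ^ (K + 1) := by
      have a1 : 2 * (2 * (y : ℝ) + 1) ≤ n := by
        have b1 : (8 * (A : ℝ)) * L ≤ L * L := mul_le_mul_of_nonneg_right g52 hL0.le
        have b2 : (4 : ℝ) * L ≤ L * L := mul_le_mul_of_nonneg_right g51 hL0.le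
        have b3 : L * L * 4 ≤ n := by
          calc L * L * 4 ≤ L * L * L := mul_le_mul_of_nonneg_left g51 (by positivity)
            _ = L ^ 3 := by ring
            _ ≤ n := g4
        linarith
      have a2 : (n : ℝ) ≤ (Pool.Agent.Q156.SW.LocS (Ioo 0 n) n y b).card * 2 := by linarith [hcount.1]
      have a3 : (2 : ℝ) ≤ L ^ (K + 1) := by
        calc (2 : ℝ) ≤ L := by linarith
          _ ≤ L ^ (K + 1) := le_self_pow₀ (by linarith) (by omega)
      exact a2.trans (mul_le_mul_of_nonneg_left a3 (Nat.cast_nonneg _))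
    refine (hcore (Ioo 0 n) (Subset.refl _) hfew).mono (by rw [hε₁]; linarith) ?_
    intro t _ h1
    rw [free_eq] at h1
    obtain ⟨f, hf⟩ : ∃ f : ℝ, f = ((Pool.Agent.Q156.SW.LocS (Ioo 0 n) n y b).card : ℝ) := ⟨_, rfl⟩
    rw [← hf] at h1 hcount
    obtain ⟨c1, c2⟩ := hcount
    have a1 : |f / G - n / G| ≤ ε₁ * (n / G) := by
      rw [← sub_div, abs_div, abs_of_pos hG0, ← mul_div_assoc]
      apply div_le_div_of_nonneg_right _ hG0.le
      rw [abs_le]
      constructor <;> linarith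
    have a2 : f / G ≤ n / G := div_le_div_of_nonneg_right c2 hG0.le
    have a3 : ε₁ * (f / G) ≤ ε₁ * (n / G) := mul_le_mul_of_nonneg_left a2 hε₁0.le
    refine (abs_sub_le _ (f / G) _).trans ?_
    have a4 : ε * ((n : ℝ) / G) = ε₁ * (n / G) + ε₁ * (n / G) := by rw [hε₁]; ring
    rw [a4]
    linarith

end Pool.Agent.Results.MP_04ff0f_nt.ObstructionFreeAsymptotic
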