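import Pool.Agent.Q290.CR.Tot2

/-!
# The number of representations of every large `n` in Cramér's random model

`A` is Cramér's random model of the primes and `el S m` the `m`-th element `≥ 3` of `S`, the model of the `m`-th prime.
Almost surely the number of the `m` with `1 ≤ m < n` such that `el A (n - m) ^ 2 - 2`, `el A m ^ 2 - 2` and
`el A (el A m) ^ 2 - 2` are elements of `A` is asymptotic to `n / (8 log ^ 3 n)`, as `n` tends to infinity through all
the integers.
-/

set_option autoImplicit false

namespace Pool.Agent.Results.MP_04ff0f_nt.RepresentationCount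

open MeasureTheory Filter Pool.Agent.Q120.MF Pool.Agent.Q197.CI Pool.Agent.Q290.CR
open scoped Topology

theorem result :
    (∃ (Ω : Type) (_ : MeasurableSpace Ω) (μ : Measure Ω) (A : Ω → Set ℕ), IsProbabilityMeasure μ ∧ IsCramer μ A) ∧
    ∀ (Ω : Type) [MeasurableSpace Ω] (μ : Measure Ω) [IsProbabilityMeasure μ] (A : Ω → Set ℕ), IsCramer μ A →
      ∀ᵐ ω ∂μ, Tendsto (fun n : ℕ =>
        ({m : ℕ | 1 ≤ m ∧ m < n ∧ Sol (A ω) n m}.ncard : ℝ) * Real.log n ^ 3 / n) atTop (𝓝 (1 / 8)) :=
  ⟨all_parts.1, fun _ _ _ _ _ hA => total hA⟩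

end Pool.Agent.Results.MP_04ff0f_nt.RepresentationCount
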